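import Pool.Agent.Run7.h684.LD.Def
import Pool.Agent.Run7.h684.Smp.Base

set_option autoImplicit false

/-! Piece S_lapD of project LD (helper684), by helper613. -/

namespace Run7.h613.LD

open MeasureTheory Filter Topology Set
open Pool.Agent.H295R2 (Lap)
open Run7.h684.LD Run7.h684.Smp

noncomputable section

theorem D_bd (h : S_dv) (k : ℕ) (σ : ℝ) (hσ : 1 < σ) : ∃ C : ℝ, 0 ≤ C ∧ ∀ x : ℝ, 1 ≤ x → D k x ≤ C * x ^ σ := by
  obtain ⟨C, hC, h1⟩ := h k (σ - 1) (by linarith)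
  refine ⟨C, hC, fun x hx => ?_⟩
  have hx0 : 0 < x := by linarith
  have h2 : D k x ≤ ∑ n ∈ Finset.Icc 1 ⌊x⌋₊, C * x ^ (σ - 1) := by
    unfold D
    refine Finset.sum_le_sum fun n hn => ?_
    rw [Finset.mem_Icc] at hn
    refine (h1 n hn.1).trans ?_
    refine mul_le_mul_of_nonneg_left ?_ hC
    refine Real.rpow_le_rpow (Nat.cast_nonneg n) ?_ (by linarith)
    exact (Nat.le_floor_iff hx0.le).1 hn.2
  refine h2.trans ?_
  rw [Finset.sum_const, Nat.card_Icc, nsmul_eq_mul, Nat.add_sub_cancel]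
  have h3 : (⌊x⌋₊ : ℝ) ≤ x := Nat.floor_le hx0.le
  have h4 : 0 ≤ C * x ^ (σ - 1) := mul_nonneg hC (Real.rpow_nonneg hx0.le _)
  have h5 : x ^ σ = x * x ^ (σ - 1) := by
    rw [show σ = 1 + (σ - 1) by ring, Real.rpow_add hx0, Real.rpow_one]
    congr 2
    ring
  calc (⌊x⌋₊ : ℝ) * (C * x ^ (σ - 1)) ≤ x * (C * x ^ (σ - 1)) := mul_le_mul_of_nonneg_right h3 h4
    _ = C * x ^ σ := by rw [h5]; ring

theorem dv_conv (k n : ℕ) (hn : n ≠ 0) : LSeries.convolution (fun n => (dv k n : ℂ)) (1 : ℕ → ℂ) n = (dv (k + 1) n : ℂ) := by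
  rw [LSeries.convolution_def]
  simp only [Pi.one_apply, mul_one]
  have := Nat.sum_divisorsAntidiagonal (n := n) (fun i _ => (dv k i : ℂ))
  rw [this]
  simp [dv]

theorem dv_LS (k : ℕ) {s : ℂ} (hs : 1 < s.re) : LSeriesSummable (fun n => (dv k n : ℂ)) s ∧
    LSeries (fun n => (dv k n : ℂ)) s = riemannZeta s ^ k := by
  induction k with
  | zero =>
    have e : ∀ {n : ℕ}, n ≠ 0 → (dv 0 n : ℂ) = LSeries.delta n := by
      intro n _
      simp only [dv, LSeries.delta]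
      split_ifs <;> simp
    constructor
    · refine (LSeriesSummable_congr s e).2 ?_
      refine summable_of_ne_finset_zero (s := {1}) fun n hn => ?_
      rw [LSeries.term_delta, if_neg (by simpa using hn)]
    · rw [LSeries_congr e s, pow_zero]
      exact congrFun LSeries_delta s
  | succ k ih =>
    have h1 : LSeriesSummable (1 : ℕ → ℂ) s := LSeriesSummable_one_iff.2 hs
    have e : ∀ {n : ℕ}, n ≠ 0 → (dv (k + 1) n : ℂ) = LSeries.convolution (fun n => (dv k n : ℂ)) (1 : ℕ → ℂ) n := by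
      intro n hn
      exact (dv_conv k n hn).symm
    constructor
    · exact (LSeriesSummable_congr s e).2 (ih.1.convolution h1)
    · rw [LSeries_congr e s, LSeries_convolution' ih.1 h1, ih.2, LSeries_one_eq_riemannZeta hs, pow_succ]

theorem D_of_lt (k : ℕ) {y : ℝ} (hy : y < 1) : D k y = 0 := by
  unfold D
  rw [Nat.floor_eq_zero.2 hy]
  simp

theorem t_lapD : S_lapD := by
  intro h k
  refine ⟨D_bd h k, fun s hs => ?_⟩
  set r : ℝ := (1 + s.re) / 2 with hr
  obtain ⟨C, hC, hD⟩ := D_bd h k r (by rw [hr]; linarith)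
  obtain ⟨h1, h2⟩ := dv_LS k hs
  rw [← h2, LSeries_eq_mul_integral (fun n => (dv k n : ℂ)) (r := r) (by rw [hr]; linarith) (by rw [hr]; linarith) h1 (by
    apply Asymptotics.IsBigO.of_bound C
    filter_upwards [eventually_ge_atTop 1] with n hn
    have h6 := hD n (by exact_mod_cast hn)
    unfold D at h6
    rw [Nat.floor_natCast] at h6
    rw [Real.norm_of_nonneg (Real.rpow_nonneg (Nat.cast_nonneg n) _)]
    have e : (∑ m ∈ Finset.Icc 1 n, (dv k m : ℂ)) = ((∑ m ∈ Finset.Icc 1 n, (dv k m : ℝ) : ℝ) : ℂ) := by push_cast; rfl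
    rw [e, Complex.norm_real, Real.norm_of_nonneg (Finset.sum_nonneg fun _ _ => Nat.cast_nonneg _)]
    exact h6)]
  congr 1
  rw [Lap]
  have e1 : ∀ t : ℝ, (∑ m ∈ Finset.Icc 1 ⌊t⌋₊, (dv k m : ℂ)) = ((D k t : ℝ) : ℂ) := by
    intro t
    unfold D
    push_cast
    rfl
  simp_rw [e1]
  rw [lap_of_mellin (fun t => ((D k t : ℝ) : ℂ)) (fun y hy => by rw [D_of_lt k hy, Complex.ofReal_zero]) s]
  refine integral_congr_ae (Eventually.of_forall fun u => ?_)
  simp only
  by_cases hu : u < 0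
  · rw [if_pos hu, D_of_lt k (by rwa [Real.exp_lt_one_iff]), Complex.ofReal_zero]
  · rw [if_neg hu]

end

end Run7.h613.LD
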